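import Pool.Agent.H37.CNX.Stmts

/-!
# Row XAP: the additive polynomial of a finite subgroup
-/

set_option autoImplicit false

namespace Pool.CND

open Finset Matrix

namespace XAPaux

open Polynomial

section

variable {F : Type} [Field F]

/-- the polynomial with the roots `V` -/
noncomputable def av (V : Finset F) : F[X] := ∏ v ∈ V, (X - C v)

/-- closed under the group operations -/
structure IsSub (V : Finset F) : Prop where
  zero : (0 : F) ∈ V
  add : ∀ a ∈ V, ∀ b ∈ V, a + b ∈ V
  neg : ∀ a ∈ V, -a ∈ V

lemma av_monic (V : Finset F) : (av V).Monic := monic_prod_of_monic _ _ fun v _ => monic_X_sub_C v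

lemma av_natDegree (V : Finset F) : (av V).natDegree = V.card :=
  natDegree_finset_prod_X_sub_C_eq_card V id

lemma av_shift {V : Finset F} (hV : IsSub V) {u : F} (hu : u ∈ V) :
    (av V).comp (X + C u) = av V := by
  unfold av
  rw [Polynomial.prod_comp]
  refine Finset.prod_nbij' (fun v => v - u) (fun v => v + u) ?_ ?_ ?_ ?_ ?_
  · intro v hv
    have := hV.add v hv (-u) (hV.neg u hu)
    rwa [← sub_eq_add_neg] at this
  · intro v hv
    exact hV.add v hv u hu
  · intro v _
    ring
  · intro v _
    ring
  · intro v _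
    simp only [sub_comp, X_comp, C_comp, map_sub]
    ring

lemma av_eval_add {V : Finset F} (hV : IsSub V) {v : F} (hv : v ∈ V) (u : F) :
    (av V).eval (v + u) = (av V).eval u := by
  have h := congrArg (Polynomial.eval u) (av_shift hV hv)
  rw [eval_comp, eval_add, eval_X, eval_C, add_comm] at h
  exact h

lemma av_eval_mem {V : Finset F} {v : F} (hv : v ∈ V) : (av V).eval v = 0 := by
  unfold av
  rw [eval_prod]
  exact Finset.prod_eq_zero hv (by simp)

lemma av_add {V : Finset F} (hV : IsSub V) (u : F) :
    (av V).comp (X + C u) = av V + C ((av V).eval u) := by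
  have hmon := av_monic V
  have hdeg := av_natDegree V
  have hcard : 0 < V.card := Finset.card_pos.mpr ⟨0, hV.zero⟩
  have hne : av V ≠ 0 := hmon.ne_zero
  have hd1 : ((av V).comp (X + C u)).natDegree = V.card := by
    rw [natDegree_comp, natDegree_X_add_C, mul_one, hdeg]
  have hl1 : ((av V).comp (X + C u)).leadingCoeff = 1 := by
    rw [leadingCoeff_comp (by rw [natDegree_X_add_C]; norm_num), hmon.leadingCoeff,
      leadingCoeff_X_add_C, one_pow, one_mul]
  have hne1 : (av V).comp (X + C u) ≠ 0 := by
    intro h
    rw [h, leadingCoeff_zero] at hl1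
    exact zero_ne_one hl1
  have hdd : ((av V).comp (X + C u) - av V).degree < (V.card : WithBot ℕ) := by
    have h1 : ((av V).comp (X + C u)).degree = (av V).degree := by
      rw [degree_eq_natDegree hne1, degree_eq_natDegree hne, hd1, hdeg]
    have h2 := degree_sub_lt_left h1 hne1 (by rw [hl1, hmon.leadingCoeff])
    rwa [degree_eq_natDegree hne1, hd1] at h2
  have hB : (av V).comp (X + C u) - av V - C ((av V).eval u) = 0 := by
    refine eq_zero_of_degree_lt_of_eval_finset_eq_zero V ?_ ?_
    · refine lt_of_le_of_lt (degree_sub_le _ _) (max_lt hdd ?_)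
      exact lt_of_le_of_lt degree_C_le (by exact_mod_cast hcard)
    · intro v hv
      rw [eval_sub, eval_sub, eval_comp, eval_add, eval_X, eval_C, eval_C, av_eval_add hV hv,
        av_eval_mem hv]
      ring
  have := sub_eq_zero.mp hB
  rw [← this]
  ring

end

/-- An additive polynomial has only exponents which are powers of `p`. -/
lemma additive_coeff {K : Type} [Field K] [IsAlgClosed K] (p : ℕ) [Fact p.Prime] [CharP K p] :
    ∀ (N : ℕ) (f : K[X]), f.natDegree ≤ N → (∀ u : K, f.comp (X + C u) = f + C (f.eval u)) →
      ∀ n : ℕ, (∀ j : ℕ, n ≠ p ^ j) → f.coeff n = 0 := by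
  have hp : p.Prime := Fact.out
  intro N
  induction N with
  | zero =>
    intro f hN hf n _
    have h0 : f.eval 0 = 0 := by
      have h := hf 0
      rw [C_0, add_zero, comp_X] at h
      have h2 := congrArg (Polynomial.eval 0) h
      rw [eval_add, eval_C] at h2
      have h3 : f.eval 0 + 0 = f.eval 0 + f.eval 0 := by rw [add_zero]; exact h2
      exact (add_left_cancel h3).symm
    have h1 := eq_C_of_natDegree_le_zero hN
    rw [h1, eval_C] at h0
    rw [h1, h0, C_0, coeff_zero]
  | succ N ih =>
    intro f hN hf n hn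
    -- the derivative is constant
    have hder : ∀ u : K, (derivative f).comp (X + C u) = derivative f := by
      intro u
      have h := congrArg derivative (hf u)
      rw [derivative_comp, derivative_add, derivative_add, derivative_X, derivative_C,
        derivative_C, add_zero, add_zero, one_mul] at h
      exact h
    obtain ⟨a, ha⟩ : ∃ a : K, derivative f = C a := by
      refine ⟨(derivative f).eval 0, Polynomial.funext (fun u => ?_)⟩
      have h := congrArg (Polynomial.eval 0) (hder u)
      rw [eval_comp, eval_add, eval_X, eval_C, zero_add] at h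
      rw [eval_C]
      exact h
    set g : K[X] := f - C a * X with hg
    have hg' : derivative g = 0 := by
      rw [hg, derivative_sub, ha, derivative_C_mul, derivative_X, mul_one, sub_self]
    have hgadd : ∀ u : K, g.comp (X + C u) = g + C (g.eval u) := by
      intro u
      rw [hg, sub_comp, hf u, mul_comp, C_comp, X_comp, eval_sub, eval_mul, eval_C, eval_X, C_sub,
        C_mul]
      ring
    have hexp : expand K p (contract p g) = g := expand_contract p hg' hp.ne_zero
    set h : K[X] := contract p g with hh
    have hhadd : ∀ w : K, h.comp (X + C w) = h + C (h.eval w) := by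
      intro w
      obtain ⟨u, hu⟩ := IsAlgClosed.exists_pow_nat_eq w hp.pos
      apply expand_injective hp.pos
      have e1 : expand K p (h.comp (X + C w)) = g.comp (X + C u) := by
        rw [← hexp, expand_eq_comp_X_pow, expand_eq_comp_X_pow, comp_assoc, comp_assoc]
        congr 1
        simp only [add_comp, X_comp, C_comp, pow_comp]
        rw [add_pow_char, ← C_pow, hu]
      rw [e1, hgadd u, map_add, hexp, expand_C]
      congr 2
      rw [← hexp, expand_eval, hu]
    have hdh : h.natDegree ≤ N := by
      have h1 : g.natDegree ≤ N + 1 := by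
        refine le_trans (natDegree_sub_le _ _) (max_le hN ?_)
        refine le_trans (natDegree_C_mul_le _ _) ?_
        rw [natDegree_X]
        omega
      rw [← hexp, natDegree_expand] at h1
      have h2 : 2 ≤ p := hp.two_le
      have h3 : h.natDegree * 2 ≤ h.natDegree * p := Nat.mul_le_mul_left _ h2
      omega
    have key := ih h hdh hhadd
    have hf' : f = g + C a * X := by rw [hg]; ring
    have hn1 : n ≠ 1 := by
      have := hn 0
      rwa [pow_zero] at this
    have e2 : (C a * X : K[X]).coeff n = 0 := by
      rw [coeff_C_mul, coeff_X, if_neg (Ne.symm hn1), mul_zero]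
    rw [hf', coeff_add, e2, add_zero, ← hexp, coeff_expand hp.pos]
    split_ifs with hdvd
    · refine key _ (fun j hj => ?_)
      apply hn (j + 1)
      rw [pow_succ, ← hj, Nat.div_mul_cancel hdvd]
    · rfl

lemma map_av {F K : Type} [Field F] [Field K] [DecidableEq K] (i : F →+* K) (V : Finset F) :
    (av V).map i = av (V.image i) := by
  unfold av
  rw [Polynomial.map_prod, Finset.prod_image (fun a _ b _ h => i.injective h)]
  refine Finset.prod_congr rfl (fun v _ => ?_)
  simp

lemma coeff_one {F : Type} [Field F] {V : Finset F} (hV : IsSub V) [DecidableEq F] :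
    av V = X * ∏ v ∈ V.erase 0, (X - C v) ∧ (∏ v ∈ V.erase 0, (X - C v)).eval 0 ≠ 0 ∧
      (av V).coeff 1 = (∏ v ∈ V.erase 0, (X - C v)).eval 0 := by
  have h1 : av V = X * ∏ v ∈ V.erase 0, (X - C v) := by
    unfold av
    rw [← Finset.mul_prod_erase V (fun v => X - C v) hV.zero, C_0, sub_zero]
  refine ⟨h1, ?_, ?_⟩
  · rw [eval_prod]
    refine Finset.prod_ne_zero_iff.mpr (fun v hv => ?_)
    rw [eval_sub, eval_X, eval_C, zero_sub]
    exact neg_ne_zero.mpr (Finset.ne_of_mem_erase hv)
  · rw [h1, show (1 : ℕ) = 0 + 1 from rfl, coeff_X_mul, coeff_zero_eq_eval_zero]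

/-- The form of the polynomial of a finite subgroup. -/
lemma av_form {F : Type} [Field F] (p : ℕ) (hp : p.Prime) [CharP F p] {V : Finset F}
    (hV : IsSub V) :
    ∃ (d : ℕ) (e : ℕ → F), V.card = p ^ d ∧ e d = 1 ∧ e 0 ≠ 0 ∧
      av V = ∑ j ∈ Finset.range (d + 1), C (e j) * X ^ (p ^ j) := by
  classical
  haveI : Fact p.Prime := ⟨hp⟩
  let K := AlgebraicClosure F
  haveI : CharP K p := charP_of_injective_algebraMap (algebraMap F K).injective p
  have hVK : IsSub (V.image (algebraMap F K)) := by
    refine ⟨?_, ?_, ?_⟩
    · exact Finset.mem_image.mpr ⟨0, hV.zero, map_zero _⟩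
    · intro a ha b hb
      obtain ⟨a', ha', rfl⟩ := Finset.mem_image.mp ha
      obtain ⟨b', hb', rfl⟩ := Finset.mem_image.mp hb
      exact Finset.mem_image.mpr ⟨a' + b', hV.add _ ha' _ hb', map_add _ _ _⟩
    · intro a ha
      obtain ⟨a', ha', rfl⟩ := Finset.mem_image.mp ha
      exact Finset.mem_image.mpr ⟨-a', hV.neg _ ha', map_neg _ _⟩
  have hco : ∀ n : ℕ, (∀ j : ℕ, n ≠ p ^ j) → (av V).coeff n = 0 := by
    intro n hn
    have h1 := additive_coeff (K := K) p _ (av (V.image (algebraMap F K))) le_rfl
      (fun u => av_add hVK u) n hn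
    rw [← map_av, coeff_map] at h1
    exact (map_eq_zero _).mp h1
  have hmon := av_monic V
  have hdeg := av_natDegree V
  obtain ⟨d, hd⟩ : ∃ d : ℕ, V.card = p ^ d := by
    by_contra hne
    push Not at hne
    have h1 := hco V.card hne
    rw [← hdeg, hmon.coeff_natDegree] at h1
    exact one_ne_zero h1
  refine ⟨d, fun j => (av V).coeff (p ^ j), hd, ?_, ?_, ?_⟩
  · change (av V).coeff (p ^ d) = 1
    rw [← hd, ← hdeg, hmon.coeff_natDegree]
  · change (av V).coeff (p ^ 0) ≠ 0
    rw [pow_zero, (coeff_one hV).2.2]
    exact (coeff_one hV).2.1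
  · ext n
    rw [finset_sum_coeff]
    simp only [coeff_C_mul, coeff_X_pow, mul_ite, mul_one, mul_zero]
    by_cases hn : ∃ j : ℕ, n = p ^ j
    · obtain ⟨j, rfl⟩ := hn
      by_cases hj : j ≤ d
      · rw [Finset.sum_eq_single j]
        · rw [if_pos rfl]
        · intro i _ hij
          rw [if_neg]
          intro h
          exact hij (Nat.pow_right_injective hp.two_le h).symm
        · intro hj'
          exact absurd (Finset.mem_range.mpr (by omega)) hj'
      · rw [Finset.sum_eq_zero]
        · apply coeff_eq_zero_of_natDegree_lt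
          rw [hdeg, hd]
          exact Nat.pow_lt_pow_right hp.one_lt (by omega)
        · intro i hi
          rw [if_neg]
          intro h
          have h2 := Nat.pow_right_injective hp.two_le h
          have h3 := Finset.mem_range.mp hi
          omega
    · push Not at hn
      rw [hco n hn, Finset.sum_eq_zero]
      intro i _
      rw [if_neg (hn i)]

/-- the values of an additive map on a group -/
lemma isSub_range {k G : Type} [Field k] [Group G] [Finite G] (ι : G → k)
    (hι : ∀ g h : G, ι (g * h) = ι g + ι h) : IsSub (Set.finite_range ι).toFinset := by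
  have h1 : ι 1 = 0 := by
    have h := hι 1 1
    rw [mul_one] at h
    have h2 : ι 1 + 0 = ι 1 + ι 1 := by rw [add_zero]; exact h
    exact (add_left_cancel h2).symm
  refine ⟨?_, ?_, ?_⟩
  · rw [Set.Finite.mem_toFinset]
    exact ⟨1, h1⟩
  · intro a ha b hb
    rw [Set.Finite.mem_toFinset] at *
    obtain ⟨g, rfl⟩ := ha
    obtain ⟨h, rfl⟩ := hb
    exact ⟨g * h, hι g h⟩
  · intro a ha
    rw [Set.Finite.mem_toFinset] at *
    obtain ⟨g, rfl⟩ := ha
    refine ⟨g⁻¹, ?_⟩
    have h := hι g g⁻¹
    rw [mul_inv_cancel, h1] at h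
    exact (neg_eq_of_add_eq_zero_right h.symm).symm

end XAPaux

open XAPaux in
theorem xap_thm : S_XAP := by
  intro p k G _ _ _ ι hp hchar hι
  have hV := isSub_range ι hι
  obtain ⟨d, e, h1, h2, h3, h4⟩ := av_form p hp hV
  refine ⟨d, e, ?_, h2, h3, h4, ?_⟩
  · rw [← h1]
    exact Nat.card_eq_card_finite_toFinset (Set.finite_range ι)
  · intro g
    exact av_shift hV ((Set.Finite.mem_toFinset _).mpr ⟨g, rfl⟩)

end Pool.CND
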