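import Pool.Agent.H17.CNX.XAP

/-!
# Row XTH: the polynomial `θ = A / (a X)`
-/

set_option autoImplicit false

namespace Pool.CND

open Finset Matrix

open XAPaux Polynomial in
theorem xth_thm : S_XTH := by
  classical
  intro p k G _ _ _ ι hp hchar hι
  set V := (Set.finite_range ι).toFinset with hVdef
  have hV : IsSub V := isSub_range ι hι
  obtain ⟨d, e, h1, h2, h3, h4⟩ := av_form p hp hV
  obtain ⟨c1, c2, c3⟩ := coeff_one hV
  set B : k[X] := ∏ v ∈ V.erase 0, (X - C v) with hB
  set a : k := B.eval 0 with ha
  have hcard : Nat.card (Set.range ι) = V.card :=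
    Nat.card_eq_card_finite_toFinset (Set.finite_range ι)
  have hVpos : 0 < V.card := Finset.card_pos.mpr ⟨0, hV.zero⟩
  have hBdeg : B.natDegree = V.card - 1 := by
    have h := natDegree_finset_prod_X_sub_C_eq_card (V.erase 0) (id : k → k)
    rw [Finset.card_erase_of_mem hV.zero] at h
    exact h
  -- the derivative of `A` is the constant `a`
  have hder : derivative (av V) = C a := by
    have h5 : derivative (av V) = C (e 0) := by
      rw [h4, derivative_sum, Finset.sum_eq_single 0]
      · rw [pow_zero, pow_one, derivative_C_mul, derivative_X, mul_one]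
      · intro j _ hj
        rw [derivative_C_mul, derivative_X_pow]
        have : ((p ^ j : ℕ) : k) = 0 := by
          rw [Nat.cast_pow, CharP.cast_eq_zero k p, zero_pow hj]
        rw [this, C_0, zero_mul, mul_zero]
      · intro h
        exact absurd (Finset.mem_range.mpr (Nat.succ_pos d)) h
    have h6 : e 0 = a := by
      have h7 : (derivative (av V)).coeff 0 = (av V).coeff 1 := by
        rw [coeff_derivative]
        simp
      rw [h5, coeff_C_zero, c3] at h7
      exact h7
    rw [h5, h6]
  have hsum : ∑ v ∈ V, B.comp (X + C v) = C a := by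
    rw [← hder, show av V = ∏ v ∈ V, (X - C v) from rfl, derivative_prod_finset]
    refine Finset.sum_nbij' (fun v => -v) (fun v => -v) ?_ ?_ ?_ ?_ ?_
    · intro v hv
      exact hV.neg v hv
    · intro v hv
      exact hV.neg v hv
    · intro v _
      exact neg_neg v
    · intro v _
      exact neg_neg v
    · intro v hv
      rw [derivative_X_sub_C, mul_one]
      have hne : (X + C v : k[X]) ≠ 0 := X_add_C_ne_zero v
      apply mul_left_cancel₀ hne
      have e1 : (X + C v) * B.comp (X + C v) = (av V).comp (X + C v) := by
        rw [c1, mul_comp, X_comp]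
      rw [e1, av_shift hV hv]
      have e2 := Finset.mul_prod_erase V (fun w => (X - C w : k[X])) (hV.neg v hv)
      rw [C_neg, sub_neg_eq_add] at e2
      exact e2.symm
  refine ⟨C a⁻¹ * B, ?_, ?_, ?_⟩
  · rw [hcard, natDegree_C_mul (inv_ne_zero c2), hBdeg]
    omega
  · rw [eval_mul, eval_C]
    exact inv_mul_cancel₀ c2
  · simp only [mul_comp, C_comp]
    rw [← Finset.mul_sum, hsum, ← C_mul, inv_mul_cancel₀ c2, C_1]

end Pool.CND
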